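import Pool.Agent.LK2.Final

/-!
Karlin's conjecture on the Landau-Kolmogorov problem on a finite interval: every `n ≥ 4`, every `1 ≤ k ≤ n - 1` and
every `σ > 0`, with the characterisation of the extremal functions (problem MP_0732f2_an).  The definitions `D`
(derivatives on `[-1, 1]`), `Cls` (the class of functions), `M` (the best constant) and `IsZolotarev`
(Zolotarev-Chebyshev perfect splines) are in `Pool/Agent/LKI/Stat.lean`.
-/

set_option autoImplicit false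

open Set
open Pool.Agent.LKI (Cls M IsZolotarev D)

namespace Pool.Agent.Results.MP_0732f2_an.KarlinConjecture

theorem result (n k : ℕ) (hn : 4 ≤ n) (hk1 : 1 ≤ k) (hkn : k + 1 ≤ n) (σ : ℝ) (hσ : 0 < σ) :
    (∃ T, IsZolotarev n σ T) ∧ ∀ T, IsZolotarev n σ T →
      M n k σ = D T k 1 ∧ (∀ f ∈ Cls n σ, ∀ x ∈ Ioo (-1 : ℝ) 1, |D f k x| < M n k σ) ∧
      ∃ c : ℝ, -1 ≤ c ∧ c < 1 ∧ |T c| = 1 ∧ {x ∈ Icc c 1 | |T x| = 1}.ncard = n ∧
        ∀ f ∈ Cls n σ,
          ((∃ x ∈ Icc (-1 : ℝ) 1, |D f k x| = M n k σ) ↔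
            ∃ s : ℝ, (s = 1 ∨ s = -1) ∧
              ((∀ x ∈ Icc c 1, f x = s * T x) ∨ ∀ x ∈ Icc c 1, f (-x) = s * T x)) :=
  Pool.LK2.main n k hn hk1 hkn σ hσ

end Pool.Agent.Results.MP_0732f2_an.KarlinConjecture
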